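import Pool.Agent.BEZ.Stmts

/-!
Squad BEZ (MP_b48657_ag), row FZR: a zero of some face system.
-/

set_option autoImplicit false

open MvPolynomial Finset

namespace Pool.Agent.BEZ.H27

/-! ### Evaluation of a sum of monomials -/

/-- the monomial `T ^ a` -/
noncomputable def mon {τ R : Type} [Fintype τ] [CommRing R] (T : τ → R) (a : τ →₀ ℕ) : R :=
  ∏ i, T i ^ a i

theorem mon_one {τ R : Type} [Fintype τ] [CommRing R] (a : τ →₀ ℕ) :
    mon (fun _ : τ => (1 : R)) a = 1 := by
  unfold mon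
  simp

theorem eval₂_mono {τ R S : Type} [Fintype τ] [CommRing R] [CommRing S] (f : R →+* S) (T : τ → S)
    (a : τ →₀ ℕ) (c : R) : eval₂ f T (monomial a c) = f c * mon T a := by
  rw [eval₂_monomial, Finsupp.prod_fintype _ _ (fun i => pow_zero _)]
  rfl

theorem eval₂_summ {τ R S : Type} [Fintype τ] [CommRing R] [CommRing S] (f : R →+* S) (T : τ → S)
    (s : Finset (τ →₀ ℕ)) (c : (τ →₀ ℕ) → R) :
    eval₂ f T (∑ a ∈ s, monomial a (c a)) = ∑ a ∈ s, f (c a) * mon T a := by
  rw [eval₂_sum]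
  exact Finset.sum_congr rfl fun a _ => eval₂_mono f T a (c a)

theorem eval₂_pd {τ R S : Type} [Fintype τ] [CommRing R] [CommRing S] (f : R →+* S)
    (s : Finset (τ →₀ ℕ)) (c : (τ →₀ ℕ) → R) (i : τ) :
    eval₂ f (fun _ => (1 : S)) (pderiv i (∑ a ∈ s, monomial a (c a))) =
      ∑ a ∈ s, f (c a) * (a i : S) := by
  classical
  rw [map_sum, eval₂_sum]
  refine Finset.sum_congr rfl fun a _ => ?_
  rw [pderiv_monomial, eval₂_mono, mon_one, mul_one, map_mul, map_natCast]

/-! ### The coefficients -/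

/-- the coefficients of the join -/
noncomputable def pc {k τ : Type} [Field k] (g : MvPolynomial τ k) (e e' : τ →₀ ℕ)
    (a : τ →₀ ℕ) : Polynomial k := by
  classical
  exact if a = e then 1 + Polynomial.X * Polynomial.C (g.coeff a - 1)
    else if a = e' then -1 + Polynomial.X * Polynomial.C (g.coeff a + 1)
    else Polynomial.X * Polynomial.C (g.coeff a)

theorem pc_one {k τ : Type} [Field k] (g : MvPolynomial τ k) (e e' a : τ →₀ ℕ) :
    (pc g e e' a).eval 1 = g.coeff a := by
  unfold pc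
  split_ifs <;> simp

open Classical in
theorem pc_zero {k τ : Type} [Field k] (g : MvPolynomial τ k) (e e' a : τ →₀ ℕ) :
    (pc g e e' a).coeff 0 = if a = e then 1 else if a = e' then -1 else 0 := by
  unfold pc
  split_ifs <;> simp

theorem sum_two {k τ : Type} [Field k] (g : MvPolynomial τ k) {e e' : τ →₀ ℕ}
    (he : e ∈ g.support) (he' : e' ∈ g.support) (hne : e ≠ e') (f : (τ →₀ ℕ) → k) :
    ∑ a ∈ g.support, (pc g e e' a).coeff 0 * f a = f e - f e' := by
  classical
  rw [← Finset.add_sum_erase _ _ he, ← Finset.add_sum_erase _ _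
    (Finset.mem_erase.2 ⟨hne.symm, he'⟩)]
  rw [Finset.sum_eq_zero, pc_zero, pc_zero, if_pos rfl, if_neg hne.symm, if_pos rfl]
  · ring
  · intro a ha
    rw [Finset.mem_erase, Finset.mem_erase] at ha
    rw [pc_zero, if_neg ha.2.1, if_neg ha.1, zero_mul]

/-- the join -/
noncomputable def jn {k τ : Type} [Field k] (g : MvPolynomial τ k) (e e' : τ →₀ ℕ) :
    MvPolynomial τ (Polynomial k) := ∑ a ∈ g.support, monomial a (pc g e e' a)

/-! ### The constant coefficient -/

theorem cc {k τ : Type} [Field k] (η : τ → k) (P : MvPolynomial τ (Polynomial k)) :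
    PowerSeries.constantCoeff (eval (fun i => PowerSeries.C (η i))
      (MvPolynomial.map (Polynomial.coeToPowerSeries.ringHom (R := k)) P)) =
    eval₂ (Polynomial.constantCoeff) η P := by
  rw [eval_map, hom_eval₂]
  have h1 : (PowerSeries.constantCoeff (R := k)).comp
      (Polynomial.coeToPowerSeries.ringHom (R := k)) = Polynomial.constantCoeff := by
    ext p <;> simp
  rw [h1]
  congr 1

/-! ### Linear independence -/

theorem indep {k ι τ : Type} [Field k] [CharZero k] [Fintype ι] [Fintype τ] {v : ι → τ → ℚ}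
    (hv : LinearIndependent ℚ v) {u : ι → τ → k} (hu : ∀ j i, u j i = ((v j i : ℚ) : k))
    (l : ι → k) (hl : ∀ i, ∑ j, l j * u j i = 0) (j : ι) : l j = 0 := by
  have h1 : LinearIndependent k (fun j => algebraMap ℚ k ∘ v j) :=
    linearIndependent_algebraMap_comp_iff.2 hv
  rw [Fintype.linearIndependent_iff] at h1
  refine h1 l ?_ j
  funext i
  rw [Finset.sum_apply]
  refine Eq.trans ?_ (hl i)
  refine Finset.sum_congr rfl fun j _ => ?_
  rw [hu]
  simp

theorem rado (rdo : RdoStmt) {k ι τ : Type} [Field k] [Fintype ι] [Fintype τ]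
    {g : ι → MvPolynomial τ k} (h : RadC g) : ∃ e e' : ι → τ →₀ ℕ,
    (∀ j, e j ∈ (g j).support) ∧ (∀ j, e' j ∈ (g j).support) ∧
    LinearIndependent ℚ (fun j => fun i => (e j i : ℚ) - (e' j i : ℚ)) := by
  classical
  let A : ι → Finset (τ → ℚ) := fun j =>
    Finset.image₂ (fun (e e' : τ →₀ ℕ) => fun i => (e i : ℚ) - (e' i : ℚ)) (g j).support
      (g j).support
  obtain ⟨v, hv, hli⟩ := rdo ℚ (τ → ℚ) ι A (by
    intro S
    have h1 : {v : τ → ℚ | ∃ j ∈ S, v ∈ A j} = {v : τ → ℚ | ∃ j ∈ S, ∃ e ∈ (g j).support,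
        ∃ e' ∈ (g j).support, v = fun i => (e i : ℚ) - (e' i : ℚ)} := by
      ext v
      simp only [A, Set.mem_ofPred_eq, Finset.mem_image₂]
      constructor
      · rintro ⟨j, hj, e, he, e', he', h⟩
        exact ⟨j, hj, e, he, e', he', h.symm⟩
      · rintro ⟨j, hj, e, he, e', he', h⟩
        exact ⟨j, hj, e, he, e', he', h.symm⟩
    rw [h1]
    exact h S)
  have h2 : ∀ j, ∃ e ∈ (g j).support, ∃ e' ∈ (g j).support,
      (fun i => (e i : ℚ) - (e' i : ℚ)) = v j := fun j => by
    have := hv j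
    simp only [A, Finset.mem_image₂] at this
    exact this
  choose e he e' he' hee using h2
  refine ⟨e, e', he, he', ?_⟩
  rw [show (fun j => fun i => (e j i : ℚ) - (e' j i : ℚ)) = v from funext hee]
  exact hli

/-! ### Orders and leading coefficients -/

theorem ord_mon {L κ τ : Type} [Field L] [Field κ] [Fintype τ] {ord : L → ℤ} {lc : L → κ}
    (h1 : ord 1 = 0 ∧ lc 1 = 1)
    (hm : ∀ x y, x ≠ 0 → y ≠ 0 → ord (x * y) = ord x + ord y ∧ lc (x * y) = lc x * lc y)
    {T : τ → L} (hT : ∀ i, T i ≠ 0) (a : τ →₀ ℕ) :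
    mon T a ≠ 0 ∧ ord (mon T a) = wt (fun i => ord (T i)) a ∧
      lc (mon T a) = mon (fun i => lc (T i)) a := by
  classical
  have hp : ∀ (i : τ) (n : ℕ), ord (T i ^ n) = ord (T i) * n ∧ lc (T i ^ n) = lc (T i) ^ n := by
    intro i n
    induction n with
    | zero => simpa using h1
    | succ n ih =>
      rw [pow_succ, (hm _ _ (pow_ne_zero n (hT i)) (hT i)).1,
        (hm _ _ (pow_ne_zero n (hT i)) (hT i)).2, ih.1, ih.2, pow_succ]
      refine ⟨?_, rfl⟩
      push_cast
      ring
  have hs : ∀ s : Finset τ, ord (∏ i ∈ s, T i ^ a i) = ∑ i ∈ s, ord (T i) * (a i : ℤ) ∧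
      lc (∏ i ∈ s, T i ^ a i) = ∏ i ∈ s, lc (T i) ^ a i := by
    intro s
    induction s using Finset.induction_on with
    | empty => simpa using h1
    | insert i s hi ih =>
      have h2 : ∏ i ∈ s, T i ^ a i ≠ 0 := Finset.prod_ne_zero_iff.2 fun i _ => pow_ne_zero _ (hT i)
      rw [Finset.prod_insert hi, Finset.sum_insert hi, Finset.prod_insert hi,
        (hm _ _ (pow_ne_zero _ (hT i)) h2).1, (hm _ _ (pow_ne_zero _ (hT i)) h2).2, ih.1, ih.2,
        (hp i _).1, (hp i _).2]
      exact ⟨rfl, rfl⟩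
  exact ⟨Finset.prod_ne_zero_iff.2 fun i _ => pow_ne_zero _ (hT i), (hs univ).1, (hs univ).2⟩

theorem ini_eval {k κ τ : Type} [Field k] [Field κ] [Algebra k κ] [Fintype τ] (w : τ → ℤ)
    (η : τ → κ) (p : MvPolynomial τ k) : aeval η (ini w p) =
    ∑ e ∈ p.support.filter (fun e => ∀ e' ∈ p.support, wt w e ≤ wt w e'),
      algebraMap k κ (p.coeff e) * mon η e := by
  unfold ini
  rw [aeval_def, eval₂_summ]

theorem fzr (rdo : RdoStmt) (hen : HenStmt) (fex : FexStmt) (plc : PlcStmt) : FzrStmt := by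
  intro k ι τ _ _ _ _ g hg
  classical
  obtain ⟨e, e', he, he', hli⟩ := rado rdo hg
  have hne : ∀ j, e j ≠ e' j := by
    intro j h
    refine hli.ne_zero j ?_
    funext i
    rw [h]
    exact sub_self _
  -- Hensel
  obtain ⟨U, hU1, hU2⟩ := hen k ι τ
    (fun j => MvPolynomial.map (Polynomial.coeToPowerSeries.ringHom (R := k))
      (jn (g j) (e j) (e' j))) (fun _ => 1) (by
      intro j
      rw [cc, jn, eval₂_summ]
      have h1 := sum_two (g j) (he j) (he' j) (hne j) (mon fun _ => (1 : k))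
      rw [mon_one, mon_one, sub_self] at h1
      exact h1) (by
      intro l hl
      refine indep hli (u := fun j i => (e j i : k) - (e' j i : k)) (fun j i => ?_) l fun i => ?_
      · push_cast
        rfl
      · have h1 := hl i
        simp only [pderiv_map] at h1
        rw [← h1]
        refine Finset.sum_congr rfl fun j _ => ?_
        rw [cc, jn, eval₂_pd]
        congr 1
        exact (sum_two (g j) (he j) (he' j) (hne j) (fun a => (a i : k))).symm)
  obtain ⟨L, iL, iA, iF, T, hT, hG⟩ := fex k ι τ (fun j => jn (g j) (e j) (e' j)) U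
    (fun i => by rw [hU1 i]; exact one_ne_zero) (fun j => by
      have := hU2 j
      rwa [eval_map] at this)
  obtain ⟨κ, iκ, iAκ, ord, lc, hlc, hmul, hpol, hsum⟩ := plc k L
  have h1 : ord 1 = 0 ∧ lc 1 = 1 := by
    have := hpol 1 (by simp)
    simpa using this.2
  refine ⟨κ, iκ, iAκ, fun i => ord (T i), fun i => lc (T i), fun i => hlc _ (hT i), fun j => ?_⟩
  rw [ini_eval]
  have hj := hG j
  rw [jn, eval₂_summ] at hj
  obtain ⟨a0, ha0, hmin⟩ := Finset.exists_min_image (g j).support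
    (wt fun i => ord (T i)) ⟨e j, he j⟩
  let x : (g j).support → L := fun a =>
    ((algebraMap (FractionRing (Polynomial k)) L).comp
      (algebraMap (Polynomial k) (FractionRing (Polynomial k)))) (pc (g j) (e j) (e' j) a.1) *
      mon T a.1
  have hx : ∀ a : (g j).support, x a ≠ 0 ∧ ord (x a) = wt (fun i => ord (T i)) a.1 ∧
      lc (x a) = algebraMap k κ ((g j).coeff a.1) * mon (fun i => lc (T i)) a.1 := by
    intro a
    obtain ⟨m1, m2, m3⟩ := ord_mon h1 hmul hT a.1
    have h2 := hpol (pc (g j) (e j) (e' j) a.1) (by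
      rw [pc_one]
      exact MvPolynomial.mem_support_iff.1 a.2)
    rw [pc_one] at h2
    obtain ⟨p1, p2, p3⟩ := h2
    refine ⟨mul_ne_zero p1 m1, ?_, ?_⟩
    · show ord (algebraMap (FractionRing (Polynomial k)) L (algebraMap _ _ _) * mon T a.1) = _
      rw [(hmul _ _ p1 m1).1, p2, m2, zero_add]
    · show lc (algebraMap (FractionRing (Polynomial k)) L (algebraMap _ _ _) * mon T a.1) = _
      rw [(hmul _ _ p1 m1).2, p3, m3]
  have h3 := hsum _ x (wt (fun i => ord (T i)) a0) (fun a => (hx a).1) (fun a => by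
    rw [(hx a).2.1]
    exact hmin _ a.2) (by
    rw [← hj]
    exact Finset.sum_coe_sort (g j).support (fun a =>
      ((algebraMap (FractionRing (Polynomial k)) L).comp
      (algebraMap (Polynomial k) (FractionRing (Polynomial k)))) (pc (g j) (e j) (e' j) a) *
      mon T a))
  rw [← h3]
  symm
  refine Finset.sum_bij (fun a _ => a.1) (fun a ha => ?_) (fun a _ b _ h => Subtype.ext h)
    (fun a ha => ?_) (fun a _ => (hx a).2.2)
  · rw [Finset.mem_filter] at ha ⊢
    refine ⟨a.2, fun b hb => ?_⟩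
    rw [← (hx a).2.1, ha.2]
    exact hmin b hb
  · rw [Finset.mem_filter] at ha
    refine ⟨⟨a, ha.1⟩, ?_, rfl⟩
    rw [Finset.mem_filter]
    refine ⟨Finset.mem_univ _, ?_⟩
    rw [(hx _).2.1]
    exact le_antisymm (ha.2 a0 ha0) (hmin a ha.1)

end Pool.Agent.BEZ.H27
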